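import Pool.Agent.TH730.NAd.Avg

/-!
# The average N-adic complexity of finite sequences is `n / 2 + O(1)`

For every base `N ≥ 2` and every length `n` the average `E` of the `N`-adic complexity over all
`N ^ n` words of length `n` satisfies `n / 2 - 3 ≤ E ≤ n / 2 + 5`; the constants do not depend on
`N` or `n`.

Proof. The pairs `(f, g)` with `g V ≡ f` modulo `N ^ n` form a lattice `L` of determinant `N ^ n`.
If `D` is the sup norm of a shortest vector then a second basis vector of norm at most
`2 N ^ n / D`, shifted by at most `N` copies of the shortest one, has second coordinate prime to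
`N`, so the complexity is at most `n + 2 - log D`. At most `6 X ^ 2` residues `V` have a nonzero
vector of norm at most `X`, hence `log D` is at least `n / 2 - 3` on average, and so is the
complexity.
-/

set_option autoImplicit false

open Finset

namespace Pool.Agent.Results.MP_68df70_lc.AverageComplexity

/-- The integer `a_0 + a_1 N + ... + a_(k-1) N^(k-1)`: the residue modulo `N^k` of the `N`-adic
integer `a_0 + a_1 N + a_2 N^2 + ...` of the infinite sequence `a`. -/
def partialValue (N : ℕ) (a : ℕ → Fin N) (k : ℕ) : ℤ :=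
  ∑ i ∈ range k, (((a i : Fin N) : ℕ) : ℤ) * (N : ℤ) ^ i

/-- The `N`-adic integer `α` of the infinite sequence `a` equals the fraction `f / g` in lowest
terms with `g > 0`. Equality of `g α` and `f` in `Z_N` means congruence modulo `N ^ k` for
every `k`. -/
def IsFraction (N : ℕ) (a : ℕ → Fin N) (f g : ℤ) : Prop :=
  0 < g ∧ IsCoprime f g ∧ ∀ k : ℕ, (N : ℤ) ^ k ∣ g * partialValue N a k - f

/-- The set of the (finite) complexities `log_N max(|f|, |g|)` of the infinite sequences `b` which
extend the word `w`. -/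
def extensionComplexities (N n : ℕ) (w : Fin n → Fin N) : Set ℝ :=
  {x : ℝ | ∃ (b : ℕ → Fin N) (f g : ℤ), (∀ i : Fin n, b i = w i) ∧ IsFraction N b f g ∧
    x = Real.logb N (max |f| |g| : ℤ)}

/-- The `N`-adic complexity of the finite sequence `w`: the least complexity of an infinite
sequence extending it (the theorem says that the infimum is attained). -/
noncomputable def complexity (N n : ℕ) (w : Fin n → Fin N) : ℝ :=
  sInf (extensionComplexities N n w)

/-- The average of the complexity over all `N ^ n` words of length `n`. -/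
noncomputable def average (N n : ℕ) : ℝ :=
  ((N : ℝ) ^ n)⁻¹ * ∑ w : Fin n → Fin N, complexity N n w

open Pool.Agent.W907.NAdic

lemma partialValue_eq (N : ℕ) (a : ℕ → Fin N) (k : ℕ) : partialValue N a k =
    Pool.Agent.Results.MP_8b2777_lc.NonPrimePowerDisproof.prefixValue N a k := rfl

/-- The value of a word. -/
def wordValue {N n : ℕ} (w : Fin n → Fin N) : ℕ := ∑ i : Fin n, (w i : ℕ) * N ^ (i : ℕ)

lemma partialValue_of_extends {N n : ℕ} (w : Fin n → Fin N) (b : ℕ → Fin N)
    (h : ∀ i : Fin n, b i = w i) : partialValue N b n = (wordValue w : ℤ) := by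
  unfold partialValue wordValue
  rw [← Fin.sum_univ_eq_sum_range (fun i => (((b i : Fin N) : ℕ) : ℤ) * (N : ℤ) ^ i) n]
  push_cast
  exact Finset.sum_congr rfl fun i _ => by rw [h i]

lemma isLeast {N : ℕ} (hN : 2 ≤ N) (n : ℕ) (w : Fin n → Fin N) :
    IsLeast (extensionComplexities N n w) (Real.logb N (mc N n (wordValue w : ℤ))) := by
  have hN1 : (1 : ℝ) < (N : ℝ) := by exact_mod_cast (by omega : 1 < N)
  constructor
  · -- some extension
    let a : ℕ → Fin N := fun i => if h : i < n then w ⟨i, h⟩ else ⟨0, by omega⟩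
    have ha : ∀ i : Fin n, a i = w i := fun i => by simp [a]
    have hval : Pool.Agent.Results.MP_8b2777_lc.NonPrimePowerDisproof.prefixValue N a n =
        (wordValue w : ℤ) := by
      rw [← partialValue_eq]; exact partialValue_of_extends w a ha
    obtain ⟨u, g, h, he⟩ := mc_mem N n (wordValue w : ℤ)
    obtain ⟨u', g', h1, h2, h3⟩ := h.lowest hN
    have h4 : mc N n (wordValue w : ℤ) = nm u' g' :=
      le_antisymm (mc_le h2) (by rw [he]; exact h3)
    obtain ⟨b, -, hb2, hb3⟩ := exists_b hN a n u' g' h1 (by rw [hval]; exact h2)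
    obtain ⟨hg0, hug, -, hdiv⟩ := hb3
    have hext : ∀ i : Fin n, b i = w i := fun i => by rw [hb2 i i.2, ha]
    rcases lt_or_gt_of_ne hg0 with hg | hg
    · refine ⟨b, -u', -g', hext, ⟨by omega, hug.neg_neg, fun k => ?_⟩, ?_⟩
      · have := dvd_neg.2 (hdiv k)
        rwa [neg_sub, ← partialValue_eq, show u' - g' * partialValue N b k =
          -g' * partialValue N b k - -u' by ring] at this
      · rw [abs_neg, abs_neg, nm_cast, h4]
    · exact ⟨b, u', g', hext, ⟨hg, hug, hdiv⟩, by rw [nm_cast, h4]⟩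
  · rintro x ⟨b, f, g, hb, ⟨hg, hfg, hdiv⟩, rfl⟩
    rw [nm_cast]
    apply Real.logb_le_logb_of_le hN1
    · have := mc_pos hN n (wordValue w : ℤ)
      exact_mod_cast this
    · have hgN : IsCoprime g (N : ℤ) := by
        rw [Int.isCoprime_iff_gcd_eq_one]
        by_contra hne
        obtain ⟨p, hp, hpd⟩ := Nat.exists_prime_and_dvd hne
        have hpd' : (p : ℤ) ∣ (Int.gcd g (N : ℤ) : ℤ) := by exact_mod_cast hpd
        have h1 : (p : ℤ) ∣ g := hpd'.trans (Int.gcd_dvd_left ..)
        have h2 : (p : ℤ) ∣ (N : ℤ) := hpd'.trans (Int.gcd_dvd_right ..)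
        have h3 := hdiv 1
        rw [pow_one] at h3
        have h4 : (p : ℤ) ∣ f := by
          have h5 := dvd_sub (Dvd.dvd.mul_right h1 (partialValue N b 1)) (h2.trans h3)
          rwa [sub_sub_cancel] at h5
        exact (Nat.prime_iff_prime_int.1 hp).not_isUnit (hfg.isUnit_of_dvd' h4 h1)
      have h1 := hdiv n
      rw [partialValue_of_extends w b hb] at h1
      exact_mod_cast mc_le (⟨hgN, h1⟩ : Cd N n (wordValue w : ℤ) f g)

lemma sum_words (N n : ℕ) (F : ℕ → ℝ) :
    ∑ w : Fin n → Fin N, F (wordValue w) = ∑ V ∈ range (N ^ n), F V := by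
  rw [← Fin.sum_univ_eq_sum_range F (N ^ n)]
  rw [← Equiv.sum_comp (finFunctionFinEquiv (m := N) (n := n)) (fun V : Fin (N ^ n) => F V)]
  refine Finset.sum_congr rfl fun w _ => ?_
  rw [finFunctionFinEquiv_apply]
  rfl

/-- For every base `N ≥ 2` and every length `n`: the minimum in the definition of the `N`-adic
complexity of a finite sequence is attained, and the average of the complexity over all words of
length `n` lies between `n / 2 - 3` and `n / 2 + 5`. -/
theorem result : ∀ N : ℕ, 2 ≤ N → ∀ n : ℕ,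
    (∀ w : Fin n → Fin N, IsLeast (extensionComplexities N n w) (complexity N n w)) ∧
    (n : ℝ) / 2 - 3 ≤ average N n ∧ average N n ≤ (n : ℝ) / 2 + 5 := by
  intro N hN n
  have hN1 : (1 : ℝ) < (N : ℝ) := by exact_mod_cast (by omega : 1 < N)
  have hN0 : (0 : ℝ) < (N : ℝ) := by linarith
  have hq0 : (0 : ℝ) < (N : ℝ) ^ n := by positivity
  have hc : ∀ w : Fin n → Fin N, complexity N n w = Real.logb N (mc N n (wordValue w : ℤ)) :=
    fun w => (isLeast hN n w).csInf_eq
  have havg : average N n = ((N : ℝ) ^ n)⁻¹ *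
      ∑ V ∈ range (N ^ n), Real.logb N (mc N n (V : ℤ)) := by
    unfold average
    congr 1
    rw [← sum_words N n (fun V => Real.logb N (mc N n (V : ℤ)))]
    exact Finset.sum_congr rfl fun w _ => hc w
  refine ⟨fun w => by rw [hc w]; exact isLeast hN n w, ?_, ?_⟩
  · -- lower bound
    have h1 := Pool.Agent.TH730.NAd.average_low hN n (fun V => mc N n (V : ℤ)) (fun V _ => by
      obtain ⟨u, g, h, he⟩ := mc_mem N n (V : ℤ)
      refine ⟨u, g, fun h0 => h.ne hN h0.2, ?_, he.symm⟩
      have := h.2
      push_cast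
      exact this)
    rw [Finset.sum_sub_distrib, Finset.sum_const, card_range, nsmul_eq_mul] at h1
    push_cast at h1
    rw [havg, ← div_eq_inv_mul, le_div_iff₀ hq0]
    linarith
  · -- upper bound
    have hex : ∀ V : ℕ, ∃ D : ℕ, (∃ u g : ℤ, ¬ (u = 0 ∧ g = 0) ∧
        ((N ^ n : ℕ) : ℤ) ∣ g * V - u ∧ nm u g = D) ∧ mc N n (V : ℤ) * D ≤ (2 + N) * N ^ n := by
      intro V
      obtain ⟨u, g, h1, h2, -, h4⟩ := Pool.Agent.TH730.NAd.upper hN n (V : ℤ)
      exact ⟨nm u g, ⟨u, g, h1, h2, rfl⟩, h4⟩
    choose D hD1 hD2 using hex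
    have h1 := Pool.Agent.TH730.NAd.average_low hN n D (fun V _ => hD1 V)
    have h2 : ∀ V ∈ range (N ^ n), Real.logb N (mc N n (V : ℤ)) ≤
        ((n : ℝ) / 2 - Real.logb N (D V)) + ((n : ℝ) / 2 + 2) := by
      intro V _
      obtain ⟨u, g, h3, -, h5⟩ := hD1 V
      have hDpos : (0 : ℝ) < (D V : ℝ) := by
        have := nm_pos h3
        rw [h5] at this
        exact_mod_cast this
      have hmpos : (0 : ℝ) < (mc N n (V : ℤ) : ℝ) := by
        exact_mod_cast mc_pos hN n (V : ℤ)
      have h6 : (mc N n (V : ℤ) : ℝ) * (D V : ℝ) ≤ (N : ℝ) ^ (n + 2) := by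
        have h7 : mc N n (V : ℤ) * D V ≤ N ^ (n + 2) := by
          refine (hD2 V).trans ?_
          have h8 : 2 + N ≤ N ^ 2 := by nlinarith
          calc (2 + N) * N ^ n ≤ N ^ 2 * N ^ n := Nat.mul_le_mul_right _ h8
            _ = N ^ (n + 2) := by ring
        exact_mod_cast h7
      have h8 := Real.logb_le_logb_of_le hN1 (mul_pos hmpos hDpos) h6
      rw [Real.logb_mul hmpos.ne' hDpos.ne', Real.logb_pow, Real.logb_self_eq_one hN1] at h8
      push_cast at h8
      linarith
    have h3 := Finset.sum_le_sum h2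
    rw [Finset.sum_add_distrib, Finset.sum_const, card_range, nsmul_eq_mul] at h3
    push_cast at h3
    rw [havg, ← div_eq_inv_mul, div_le_iff₀ hq0]
    linarith

end Pool.Agent.Results.MP_68df70_lc.AverageComplexity
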